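import Pool.Agent.Lib.lead.CXGraph

namespace Pool.Agent.H.MP_f6aff2_lc

open Classical in
/-- `f` is an integer dominating function: it has sum at least one on every closed neighbourhood -/
def IsDom {V : Type} [Fintype V] (G : SimpleGraph V) (f : V → ℤ) : Prop :=
  ∀ v, 1 ≤ ∑ u with u = v ∨ G.Adj v u, f u

/-- the integer domination number, an extended real -/
noncomputable def gammaZ {V : Type} [Fintype V] (G : SimpleGraph V) : EReal :=
  ⨅ (f : V → ℤ) (_ : IsDom G f), (((∑ v, f v : ℤ) : ℝ) : EReal)

end Pool.Agent.H.MP_f6aff2_lc
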