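import Pool.Agent.Lib.lead.CXGraphRed
import Pool.Agent.H.MP_f6aff2_lc.Defs

namespace Pool.Agent.H.MP_f6aff2_lc

open Pool.Agent.Lib.CX

theorem gammaZ_le {V : Type} [Fintype V] (G : SimpleGraph V) (k : ℤ) :
    gammaZ G ≤ ((k : ℝ) : EReal) ↔ ∃ f, IsDom G f ∧ ∑ v, f v ≤ k := by
  constructor
  · intro h
    have h1 : gammaZ G < (((k + 1 : ℤ) : ℝ) : EReal) :=
      h.trans_lt (by exact_mod_cast lt_add_one k)
    simp only [gammaZ, iInf_lt_iff] at h1
    obtain ⟨f, hf, h2⟩ := h1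
    have h3 : ∑ v, f v < k + 1 := by exact_mod_cast h2
    exact ⟨f, hf, by omega⟩
  · rintro ⟨f, hf, h⟩
    exact (iInf₂_le f hf).trans (by exact_mod_cast h)

theorem sum_mk {V : Type} [DecidableEq V] (vs : List V) (es : List (V × V)) (h : V → ℤ) :
    ∑ i, h (mkGrEquiv vs es i).1 = ∑ x ∈ vs.toFinset, h x := by
  refine Finset.sum_nbij (fun i => (mkGrEquiv vs es i).1) (fun i _ => ?_) (fun i _ j _ e => ?_)
    (fun x hx => ?_) (fun _ _ => rfl)
  · exact List.mem_toFinset.2 (mkGrEquiv vs es i).2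
  · exact (mkGrEquiv vs es).injective (Subtype.ext e)
  · exact ⟨(mkGrEquiv vs es).symm ⟨x, by simpa using hx⟩, by simp, by simp⟩

theorem dom_mk {V : Type} [DecidableEq V] (vs : List V) (N : V → V → Prop) [DecidableRel N]
    (h1 : ∀ u, N u u) (h2 : ∀ u v, N u v → N v u) (k : ℤ) :
    (∃ f, IsDom (mkGr vs ((vs ×ˢ vs).filter fun e => N e.1 e.2)).G f ∧ ∑ v, f v ≤ k) ↔
      ∃ g : V → ℤ, (∀ v ∈ vs, 1 ≤ ∑ u ∈ vs.toFinset, if N v u then g u else 0) ∧
        ∑ u ∈ vs.toFinset, g u ≤ k := by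
  set es := (vs ×ˢ vs).filter fun e => decide (N e.1 e.2) with hes
  have key : ∀ u v, (u = v ∨ (mkGr vs es).G.Adj v u) ↔
      N (mkGrEquiv vs es v).1 (mkGrEquiv vs es u).1 := by
    intro u v
    have h3 := (mkGrIso vs es).map_rel_iff (a := v) (b := u)
    rw [← h3]
    have hu : (mkGrEquiv vs es u).1 ∈ vs := (mkGrEquiv vs es u).2
    have hv : (mkGrEquiv vs es v).1 ∈ vs := (mkGrEquiv vs es v).2
    change _ ∨ (SimpleGraph.fromRel fun u v : V => (u, v) ∈ es).Adj (mkGrEquiv vs es v).1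
      (mkGrEquiv vs es u).1 ↔ _
    simp only [SimpleGraph.fromRel_adj, hes, List.mem_filter, decide_eq_true_eq]
    constructor
    · rintro (rfl | ⟨-, h | h⟩)
      · exact h1 _
      · exact h.2
      · exact h2 _ _ h.2
    · intro h
      by_cases e : u = v
      · exact .inl e
      · exact .inr ⟨fun e' => e ((mkGrEquiv vs es).injective (Subtype.ext e'.symm)),
          .inl ⟨List.pair_mem_product.2 ⟨hv, hu⟩, h⟩⟩
  have main : ∀ g : V → ℤ, IsDom (mkGr vs es).G (fun i => g (mkGrEquiv vs es i).1) ↔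
      ∀ v ∈ vs, 1 ≤ ∑ u ∈ vs.toFinset, if N v u then g u else 0 := by
    intro g
    simp only [IsDom, Finset.sum_filter, key]
    constructor
    · intro h v hv
      have := h ((mkGrEquiv vs es).symm ⟨v, hv⟩)
      rw [sum_mk vs es (fun u => if N _ u then g u else 0)] at this
      simpa using this
    · intro h v
      rw [sum_mk vs es (fun u => if N _ u then g u else 0)]
      exact h _ (mkGrEquiv vs es v).2
  constructor
  · rintro ⟨f, h3, h4⟩
    let g : V → ℤ := fun x => if h : x ∈ vs then f ((mkGrEquiv vs es).symm ⟨x, h⟩) else 0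
    have e : f = fun i => g (mkGrEquiv vs es i).1 := by
      funext i
      have hi : (mkGrEquiv vs es i).1 ∈ vs := (mkGrEquiv vs es i).2
      simp [g, hi]
    rw [e] at h3 h4
    exact ⟨g, (main g).1 h3, by rwa [sum_mk] at h4⟩
  · rintro ⟨g, h3, h4⟩
    exact ⟨_, (main g).2 h3, by rwa [sum_mk]⟩

abbrev W := ℕ × Cl3 ℕ

def tri (x : ℕ) (b : Bool) : Cl3 ℕ := ((x, b), (x, b), (x, b))

def bE : List (ℕ × ℕ) := [(0,1),(0,2),(0,3),(0,4),(2,5),(3,5),(0,6),(1,6),(2,6),(4,6),(1,7),(4,7),(5,7),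
  (1,8),(2,8),(3,8),(4,8),(6,8),(0,9),(1,9),(3,9),(4,9),(8,9)]

def B (s t : ℕ) : Prop := s = t ∨ (s, t) ∈ bE ∨ (t, s) ∈ bE
instance : DecidableRel B := fun _ _ => by unfold B; infer_instance

def cls (v : W) : ℕ := if v.1 = 10 then 5 else if v.1 = 11 then 2 else v.1
def M1 (u v : W) : Prop := u.1 = 11 ∧ v.1 = 10 ∧ u.2.1.1 = v.2.1.1
def M2 (u v : W) : Prop := u.1 = 9 ∧ v.1 = 10 ∧ (v.2.1 = u.2.1 ∨ v.2.1 = u.2.2.1 ∨ v.2.1 = u.2.2.2)
instance : DecidableRel M1 := fun _ _ => by unfold M1; infer_instance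
instance : DecidableRel M2 := fun _ _ => by unfold M2; infer_instance
def N (u v : W) : Prop := (B (cls u) (cls v) ∧ ¬ M1 u v ∧ ¬ M1 v u) ∨ M2 u v ∨ M2 v u
instance : DecidableRel N := fun _ _ => by unfold N; infer_instance

def vs (φ : List (Cl3 ℕ)) : List W :=
  (List.range 9).map (fun t => (t, tri 0 false)) ++ φ.map (fun C => (9, C)) ++
    (List.range (3 * φ.length)).flatMap fun x => [(10, tri x true), (10, tri x false), (11, tri x false)]

theorem mem_vs {φ : List (Cl3 ℕ)} {v : W} : v ∈ vs φ ↔ (∃ t < 9, v = (t, tri 0 false)) ∨ (∃ C ∈ φ, v = (9, C)) ∨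
    (∃ x < 3 * φ.length, ∃ b, v = (10, tri x b)) ∨ ∃ x < 3 * φ.length, v = (11, tri x false) := by
  simp only [vs, List.mem_append, List.mem_map, List.mem_range, List.mem_flatMap, List.mem_cons,
    List.not_mem_nil, or_false, Bool.exists_bool, eq_comm (a := v), or_assoc]
  refine or_congr Iff.rfl (or_congr Iff.rfl ?_)
  constructor
  · rintro ⟨x, hx, h | h | h⟩
    · exact .inl ⟨x, hx, .inr h⟩
    · exact .inl ⟨x, hx, .inl h⟩
    · exact .inr ⟨x, hx, h⟩
  · rintro (⟨x, hx, h | h⟩ | ⟨x, hx, h⟩)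
    · exact ⟨x, hx, .inr (.inl h)⟩
    · exact ⟨x, hx, .inl h⟩
    · exact ⟨x, hx, .inr (.inr h)⟩

theorem N_refl (u : W) : N u u := by
  refine .inl ⟨.inl rfl, ?_, ?_⟩ <;> rintro ⟨h1, h2, -⟩ <;> omega

theorem N_symm (u v : W) (h : N u v) : N v u := by
  unfold N B at *; tauto

theorem sum_M1 {φ : List (Cl3 ℕ)} (g : W → ℤ) {x : ℕ} (hx : x < 3 * φ.length) :
    (∑ u ∈ (vs φ).toFinset, if M1 (11, tri x false) u then g u else 0) =
      g (10, tri x true) + g (10, tri x false) := by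
  rw [← Finset.sum_filter, ← Finset.sum_pair (by simp [tri])]
  congr 1
  ext u
  simp only [Finset.mem_filter, List.mem_toFinset, mem_vs, Finset.mem_insert, Finset.mem_singleton]
  constructor
  · rintro ⟨⟨t, ht, rfl⟩ | ⟨C, -, rfl⟩ | ⟨y, -, b, rfl⟩ | ⟨y, -, rfl⟩, -, h1, h2⟩
    · simp only at h1; omega
    · simp at h1
    · obtain rfl : x = y := h2
      cases b <;> simp
    · simp at h1
  · rintro (rfl | rfl)
    · exact ⟨.inr (.inr (.inl ⟨x, hx, _, rfl⟩)), rfl, rfl, rfl⟩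
    · exact ⟨.inr (.inr (.inl ⟨x, hx, _, rfl⟩)), rfl, rfl, rfl⟩

theorem sum_Y (S : Finset W) (g : W → ℤ) (c : Cl3 ℕ) :
    (∑ u ∈ S, if N (11, c) u then g u else 0) =
      (∑ u ∈ S, if B 2 (cls u) then g u else 0) - ∑ u ∈ S, if M1 (11, c) u then g u else 0 := by
  rw [← Finset.sum_sub_distrib]
  refine Finset.sum_congr rfl fun u _ => ?_
  by_cases h : M1 (11, c) u
  · have h2 : B 2 (cls u) := by simp only [cls, h.2.1]; decide
    have h3 : ¬ N (11, c) u := by
      have := h.2.1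
      simp [N, h, M2, this]
    simp [h, h2, h3]
  · have : N (11, c) u ↔ B 2 (cls u) := by
      have h4 : cls (11, c) = 2 := rfl
      simp [N, h, M2, h4, M1]
      intro _ h5 h6
      exact h ⟨rfl, h5, h6⟩
    simp [h, this]

theorem sum_C (S : Finset W) (g : W → ℤ) (c : Cl3 ℕ) :
    (∑ u ∈ S, if N (9, c) u then g u else 0) =
      (∑ u ∈ S, if B 9 (cls u) then g u else 0) + ∑ u ∈ S, if M2 (9, c) u then g u else 0 := by
  rw [← Finset.sum_add_distrib]
  refine Finset.sum_congr rfl fun u _ => ?_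
  by_cases h : M2 (9, c) u
  · have h2 : ¬ B 9 (cls u) := by simp only [cls, h.2.1]; decide
    have h3 : N (9, c) u := .inr (.inl h)
    simp [h, h2, h3]
  · have : N (9, c) u ↔ B 9 (cls u) := by
      have h4 : cls (9, c) = 9 := rfl
      have h5 : ¬ M2 u (9, c) := fun h => by simpa using h.2.1
      simp [N, h, h4, h5, M1]
    simp [h, this]

theorem N_T {t : ℕ} (ht : t < 9) (c : Cl3 ℕ) (u : W) : N (t, c) u ↔ B t (cls u) := by
  have h1 : t ≠ 9 := by omega
  have h2 : t ≠ 10 := by omega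
  have h3 : t ≠ 11 := by omega
  simp [N, M1, M2, cls, h1, h2, h3]

theorem cls_lt {φ : List (Cl3 ℕ)} {u : W} (h : u ∈ vs φ) : cls u < 10 := by
  rcases mem_vs.1 h with ⟨t, ht, rfl⟩ | ⟨C, -, rfl⟩ | ⟨y, -, b, rfl⟩ | ⟨y, -, rfl⟩
  · simp only [cls]; split_ifs <;> omega
  all_goals simp [cls]

theorem sound {φ : List (Cl3 ℕ)} (g : W → ℤ)
    (h1 : ∀ v ∈ vs φ, 1 ≤ ∑ u ∈ (vs φ).toFinset, if N v u then g u else 0)
    (h2 : ∑ u ∈ (vs φ).toFinset, g u ≤ 2) : Sat3 φ := by
  set S := (vs φ).toFinset with hS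
  set P : ℕ → ℤ := fun c => ∑ u ∈ S with cls u = c, g u with hP
  have hm : ∀ u ∈ S, cls u ∈ Finset.range 10 := fun u hu =>
    Finset.mem_range.2 (cls_lt (List.mem_toFinset.1 hu))
  have e0 : ∑ u ∈ S, g u = ∑ c ∈ Finset.range 10, P c := (Finset.sum_fiberwise_of_maps_to hm g).symm
  have e1 : ∀ t, (∑ u ∈ S, if B t (cls u) then g u else 0) =
      ∑ c ∈ Finset.range 10, if B t c then P c else 0 := by
    intro t
    rw [← Finset.sum_fiberwise_of_maps_to hm]
    refine Finset.sum_congr rfl fun c _ => ?_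
    split_ifs with h
    · exact Finset.sum_congr rfl fun u hu => by rw [(Finset.mem_filter.1 hu).2, if_pos h]
    · exact Finset.sum_eq_zero fun u hu => by rw [(Finset.mem_filter.1 hu).2, if_neg h]
  have e2 : ∀ t < 9, 1 ≤ ∑ c ∈ Finset.range 10, if B t c then P c else 0 := by
    intro t ht
    have := h1 (t, tri 0 false) (mem_vs.2 (.inl ⟨t, ht, rfl⟩))
    simp only [N_T ht] at this
    rwa [e1] at this
  have e3 : (∑ c ∈ Finset.range 10, if B 9 c then P c else 0) ≤ 0 ∧
      (∑ c ∈ Finset.range 10, if B 2 c then P c else 0) ≤ 2 := by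
    have a0 := e2 0 (by omega)
    have a1 := e2 1 (by omega)
    have a2 := e2 2 (by omega)
    have a3 := e2 3 (by omega)
    have a4 := e2 4 (by omega)
    have a5 := e2 5 (by omega)
    have a6 := e2 6 (by omega)
    have a7 := e2 7 (by omega)
    have a8 := e2 8 (by omega)
    rw [e0] at h2
    simp only [Finset.sum_range_succ, Finset.sum_range_zero, B, bE] at a0 a1 a2 a3 a4 a5 a6 a7 a8 h2 ⊢
    norm_num at a0 a1 a2 a3 a4 a5 a6 a7 a8 h2 ⊢
    omega
  have hY : ∀ x < 3 * φ.length, g (10, tri x true) + g (10, tri x false) ≤ 1 := by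
    intro x hx
    have := h1 _ (mem_vs.2 (.inr (.inr (.inr ⟨x, hx, rfl⟩))))
    rw [sum_Y, e1, sum_M1 g hx] at this
    omega
  refine ⟨fun x => decide (1 ≤ g (10, tri x true)), fun C hC => ?_⟩
  have := h1 _ (mem_vs.2 (.inr (.inl ⟨C, hC, rfl⟩)))
  rw [sum_C, e1] at this
  have h3 : ∃ u ∈ S, M2 (9, C) u ∧ 1 ≤ g u := by
    by_contra hc
    push Not at hc
    have : (∑ u ∈ S, if M2 (9, C) u then g u else 0) ≤ 0 := Finset.sum_nonpos fun u hu => by
      split_ifs with h
      · have := hc u hu h; omega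
      · exact le_rfl
    omega
  obtain ⟨u, hu, ⟨-, h4, h5⟩, h6⟩ := h3
  rcases mem_vs.1 (List.mem_toFinset.1 hu) with ⟨t, ht, rfl⟩ | ⟨C, -, rfl⟩ | ⟨y, hy, b, rfl⟩ | ⟨y, -, rfl⟩
  · simp only at h4; omega
  · simp at h4
  · have h7 : decide (1 ≤ g (10, tri y true)) = b := by
      have := hY y hy
      cases b
      · simp only [decide_eq_false_iff_not]; omega
      · simpa using h6
    simp only [tri] at h5
    rcases h5 with h | h | h
    · exact .inl (by rw [← h]; exact h7)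
    · exact .inr (.inl (by rw [← h]; exact h7))
    · exact .inr (.inr (by rw [← h]; exact h7))
  · simp at h4

theorem complete {φ : List (Cl3 ℕ)} (hφ : ∀ C ∈ φ, ∀ x ∈ C.vars, x < 3 * φ.length) (h : Sat3 φ) :
    ∃ g : W → ℤ, (∀ v ∈ vs φ, 1 ≤ ∑ u ∈ (vs φ).toFinset, if N v u then g u else 0) ∧
      ∑ u ∈ (vs φ).toFinset, g u ≤ 2 := by
  obtain ⟨a, ha⟩ := h
  set S := (vs φ).toFinset with hS
  let g0 : W → ℤ := fun u => if u.1 = 10 ∧ a u.2.1.1 = u.2.1.2 then 1 else 0
  set L := ∑ u ∈ S, g0 u with hL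
  let g : W → ℤ := fun u => g0 u + (if u = (5, tri 0 false) then 1 - L else 0) +
    if u = (6, tri 0 false) then 1 else 0
  have m5 : (5, tri 0 false) ∈ S := List.mem_toFinset.2 (mem_vs.2 (.inl ⟨5, by omega, rfl⟩))
  have m6 : (6, tri 0 false) ∈ S := List.mem_toFinset.2 (mem_vs.2 (.inl ⟨6, by omega, rfl⟩))
  have e1 : ∀ t, (∑ u ∈ S, if B t (cls u) then g u else 0) =
      (if B t 5 then 1 else 0) + if B t 6 then 1 else 0 := by
    intro t
    have : ∀ u ∈ S, (if B t (cls u) then g u else 0) = (if B t 5 then g0 u else 0) +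
        (if u = (5, tri 0 false) then (if B t 5 then 1 - L else 0) else 0) +
        if u = (6, tri 0 false) then (if B t 6 then 1 else 0) else 0 := by
      intro u _
      by_cases h1 : u.1 = 10
      · have h2 : u ≠ (5, tri 0 false) := by rintro rfl; simp at h1
        have h3 : u ≠ (6, tri 0 false) := by rintro rfl; simp at h1
        simp [g, h2, h3, cls, h1]
      · by_cases h2 : u = (5, tri 0 false)
        · subst h2; simp [g, g0, cls]
        · by_cases h3 : u = (6, tri 0 false)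
          · subst h3; simp [g, g0, cls]
          · simp [g, g0, h1, h2, h3]
    rw [Finset.sum_congr rfl this, Finset.sum_add_distrib, Finset.sum_add_distrib,
      Finset.sum_ite_eq' S, Finset.sum_ite_eq' S, if_pos m5, if_pos m6]
    split_ifs <;> simp [← hL]
  have g10 : ∀ c, g (10, c) = if a c.1.1 = c.1.2 then 1 else 0 := fun c => by simp [g, g0]
  refine ⟨g, fun v hv => ?_, ?_⟩
  · rcases mem_vs.1 hv with ⟨t, ht, rfl⟩ | ⟨C, hC, rfl⟩ | ⟨y, hy, b, rfl⟩ | ⟨y, hy, rfl⟩
    · simp only [N_T ht]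
      rw [e1]
      clear hv; revert t; decide
    · rw [sum_C, e1, if_neg (by decide), if_neg (by decide)]
      have : ∃ x < 3 * φ.length, ∃ b, M2 (9, C) (10, tri x b) ∧ a x = b := by
        have h1 := hφ C hC
        simp only [Cl3.vars, List.forall_mem_cons] at h1
        rcases ha C hC with h | h | h
        · exact ⟨_, h1.1, _, ⟨rfl, rfl, .inl rfl⟩, h⟩
        · exact ⟨_, h1.2.1, _, ⟨rfl, rfl, .inr (.inl rfl)⟩, h⟩
        · exact ⟨_, h1.2.2.1, _, ⟨rfl, rfl, .inr (.inr rfl)⟩, h⟩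
      obtain ⟨x, hx, b, h1, h2⟩ := this
      have h3 := Finset.single_le_sum (f := fun u => if M2 (9, C) u then g u else 0) (s := S)
        (fun u _ => by
          split_ifs with h
          · obtain ⟨t, c⟩ := u
            obtain rfl : t = 10 := h.2.1
            rw [g10]; split_ifs <;> omega
          · exact le_rfl)
        (List.mem_toFinset.2 (mem_vs.2 (.inr (.inr (.inl ⟨x, hx, b, rfl⟩)))))
      rw [if_pos h1, g10, if_pos (by simpa [tri] using h2)] at h3
      omega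
    · have : ∀ u ∈ S, (if N (10, tri y b) u then g u else 0) = if B 5 (cls u) then g u else 0 := by
        intro u _
        by_cases h1 : u.1 = 9 ∨ u.1 = 11
        · have : g u = 0 := by
            obtain ⟨t, c⟩ := u
            rcases h1 with h1 | h1 <;> simp only at h1 <;> subst h1 <;> simp [g, g0]
          simp [this]
        · have h4 : cls (10, tri y b) = 5 := rfl
          push Not at h1
          simp [N, M1, M2, h1.1, h1.2, h4]
      rw [Finset.sum_congr rfl this, e1]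
      decide
    · rw [sum_Y, e1, sum_M1 g hy, g10, g10, if_pos (by decide), if_pos (by decide)]
      simp only [tri]
      by_cases h : a y = true <;> simp [h]
  · simp only [g]
    rw [Finset.sum_add_distrib, Finset.sum_add_distrib,
      Finset.sum_ite_eq' S, Finset.sum_ite_eq' S, if_pos m5, if_pos m6]
    omega

set_option synthInstance.maxSize 1000 in
theorem hard2 : NPHard fun a : Gr => gammaZ a.G ≤ (((2 : ℤ) : ℝ) : EReal) := by
  refine NPHard.of_sat3 (fun φ => mkGr (vs φ) ((vs φ ×ˢ vs φ).filter fun e => N e.1 e.2))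
    (by unfold N M1 M2 B cls vs tri; fun_prop) fun φ hφ => ?_
  rw [gammaZ_le, dom_mk _ N N_refl N_symm]
  exact ⟨complete hφ, fun ⟨g, h1, h2⟩ => sound g h1 h2⟩

end Pool.Agent.H.MP_f6aff2_lc
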